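import Pool.Agent.L7h32.OS.Stm

/-! # Project OS, part BOX -/

set_option autoImplicit false

namespace Pool.Agent.L7h47.OS

open Set
open Pool.Agent.L7h32.OS

/-- A polynomial with derivative `≤ 0`, not identically zero, on an interval is strictly antitone. -/
lemma strictAntiOn_uIcc (P : Polynomial ℝ) (hP : P.derivative ≠ 0) (a b : ℝ)
    (h : ∀ t ∈ uIcc a b, P.derivative.eval t ≤ 0) :
    StrictAntiOn (fun t => P.eval t) (uIcc a b) := by
  have hanti : AntitoneOn (fun t => P.eval t) (uIcc a b) := by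
    refine antitoneOn_of_deriv_nonpos (convex_uIcc a b) P.continuous.continuousOn
      P.differentiable.differentiableOn fun t ht => ?_
    rw [Polynomial.deriv]
    exact h t (interior_subset ht)
  intro s hs t ht hst
  refine lt_of_le_of_ne (hanti hs ht hst.le) fun e => hP ?_
  have e' : P.eval t = P.eval s := e
  have hc : ∀ u ∈ Icc s t, P.eval u = P.eval s := fun u hu => by
    have hu' : u ∈ uIcc a b := ordConnected_uIcc.out hs ht hu
    exact le_antisymm (hanti hs hu' hu.1) (e' ▸ hanti hu' ht hu.2)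
  have hPC : P = Polynomial.C (P.eval s) := by
    apply Polynomial.eq_of_infinite_eval_eq
    refine Set.Infinite.mono (fun u hu => ?_) (Set.Icc_infinite hst)
    change P.eval u = (Polynomial.C (P.eval s)).eval u
    rw [Polynomial.eval_C]
    exact hc u hu
  rw [hPC, Polynomial.derivative_C]

/-- Part BOX. -/
theorem s_BOX : S_BOX := by
  intro P Q x x' y y' hP hQ hPi hQi h h'
  have hPa := strictAntiOn_uIcc P hP x x' hPi
  have hQa := strictAntiOn_uIcc Q hQ y y' hQi
  have h1 : P.eval x + Q.eval y = 0 := h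
  have h2 : P.eval x' + Q.eval y' = 0 := h'
  set A : Set (ℝ × ℝ) := (uIcc x x' ×ˢ uIcc y y') ∩ {p | P.eval p.1 + Q.eval p.2 = 0} with hA
  have hcl : IsClosed {p : ℝ × ℝ | P.eval p.1 + Q.eval p.2 = 0} :=
    isClosed_eq ((P.continuous.comp continuous_fst).add (Q.continuous.comp continuous_snd))
      continuous_const
  have hcpt : IsCompact A := (isCompact_uIcc.prod isCompact_uIcc).inter_right hcl
  have : CompactSpace A := isCompact_iff_compactSpace.1 hcpt
  refine ⟨A, fun p hp => hp.2, ?_, ⟨⟨left_mem_uIcc, left_mem_uIcc⟩, h1⟩,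
    ⟨⟨right_mem_uIcc, right_mem_uIcc⟩, h2⟩⟩
  set f : A → ℝ := fun p => p.1.1 with hf
  have hfc : Continuous f := continuous_fst.comp continuous_subtype_val
  have hinj : Function.Injective f := by
    rintro ⟨⟨t, s⟩, ⟨⟨ht, hs⟩, hts⟩⟩ ⟨⟨t', s'⟩, ⟨⟨ht', hs'⟩, hts'⟩⟩ e
    have e1 : t = t' := e
    subst e1
    have e2 : P.eval t + Q.eval s = 0 := hts
    have e3 : P.eval t + Q.eval s' = 0 := hts'
    have e4 : s = s' := hQa.injOn hs hs' (by
      change Q.eval s = Q.eval s'
      linarith)
    subst e4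
    rfl
  have hrange : uIcc x x' ⊆ range f := by
    intro t ht
    have hmem : -P.eval t ∈ uIcc (Q.eval y) (Q.eval y') := by
      have ey : Q.eval y = -P.eval x := by linarith
      have ey' : Q.eval y' = -P.eval x' := by linarith
      rw [ey, ey']
      rcases le_total x x' with hxx | hxx
      · rw [uIcc_of_le hxx] at ht
        have a1 := hPa.antitoneOn left_mem_uIcc (by rw [uIcc_of_le hxx]; exact ht) ht.1
        have a2 := hPa.antitoneOn (by rw [uIcc_of_le hxx]; exact ht) right_mem_uIcc ht.2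
        exact mem_uIcc.2 (Or.inl ⟨neg_le_neg a1, neg_le_neg a2⟩)
      · rw [uIcc_of_ge hxx] at ht
        have a1 := hPa.antitoneOn right_mem_uIcc (by rw [uIcc_of_ge hxx]; exact ht) ht.1
        have a2 := hPa.antitoneOn (by rw [uIcc_of_ge hxx]; exact ht) left_mem_uIcc ht.2
        exact mem_uIcc.2 (Or.inr ⟨neg_le_neg a1, neg_le_neg a2⟩)
    obtain ⟨s, hs, hst⟩ := intermediate_value_uIcc (f := fun s => Q.eval s)
      Q.continuous.continuousOn hmem
    have hst' : Q.eval s = -P.eval t := hst
    exact ⟨⟨(t, s), ⟨⟨ht, hs⟩, by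
      change P.eval t + Q.eval s = 0
      linarith⟩⟩, rfl⟩
  have hpre : IsPreconnected (f ⁻¹' uIcc x x') :=
    isPreconnected_uIcc.preimage_of_isClosedMap hinj hfc.isClosedMap hrange
  have huniv : f ⁻¹' uIcc x x' = univ := by
    ext p
    simp only [mem_preimage, mem_univ, iff_true]
    exact p.2.1.1
  rw [huniv] at hpre
  have him := hpre.image (Subtype.val : A → ℝ × ℝ) continuous_subtype_val.continuousOn
  rwa [image_univ, Subtype.range_coe] at him

end Pool.Agent.L7h47.OS
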